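import Pool.Agent.H796H.Theta
import Pool.Agent.Helper272_TF.D

set_option autoImplicit false

/-!
Project HAN: the concrete algebra `A Q` (paper 207, theta function model).
-/

open Complex Module
open Pool.Agent.H796H

namespace Pool.Agent.Helper272_HN

/-- columns of functions -/
abbrev Col : Type := Fin 3 → ℂ → ℂ

/-- matrices of functions -/
abbrev Mt : Type := Fin 3 → Fin 3 → ℂ → ℂ

abbrev G : Type := Col × Col

/-- translation by `Q` -/
def tau (Q : ℂ) : (ℂ → ℂ) →ₗ[ℂ] (ℂ → ℂ) where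
  toFun f z := f (z - Q)
  map_add' _ _ := rfl
  map_smul' _ _ := rfl

@[simp] theorem tau_apply (Q : ℂ) (f : ℂ → ℂ) (z : ℂ) : tau Q f z = f (z - Q) := rfl

theorem tau_mul (Q : ℂ) (f g : ℂ → ℂ) : tau Q (f * g) = tau Q f * tau Q g := rfl

/-- matrix times column -/
def mv (b : Mt) (p : Col) : Col := fun i => ∑ l, b i l * p l

def mm (b c : Mt) : Mt := fun i j => ∑ l, b i l * c l j

theorem mv_add (b : Mt) (p q : Col) : mv b (p + q) = mv b p + mv b q := by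
  ext i z
  simp [mv, Finset.sum_apply, mul_add, Finset.sum_add_distrib]

theorem add_mv (b c : Mt) (p : Col) : mv (b + c) p = mv b p + mv c p := by
  ext i z
  simp [mv, Finset.sum_apply, add_mul, Finset.sum_add_distrib]

theorem mv_smul (b : Mt) (c : ℂ) (p : Col) : mv b (c • p) = c • mv b p := by
  ext i z
  simp only [mv, Finset.sum_apply, Pi.mul_apply, Pi.smul_apply, smul_eq_mul, Finset.mul_sum]
  exact Finset.sum_congr rfl fun l _ => by ring

theorem smul_mv (b : Mt) (c : ℂ) (p : Col) : mv (c • b) p = c • mv b p := by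
  ext i z
  simp only [mv, Finset.sum_apply, Pi.mul_apply, Pi.smul_apply, smul_eq_mul, Finset.mul_sum]
  exact Finset.sum_congr rfl fun l _ => by ring

theorem mv_mv (b c : Mt) (p : Col) : mv b (mv c p) = mv (mm b c) p := by
  ext i z
  simp only [mv, mm, Finset.sum_apply, Pi.mul_apply, Finset.mul_sum, Finset.sum_mul]
  rw [Finset.sum_comm]
  exact Finset.sum_congr rfl fun l _ => Finset.sum_congr rfl fun m _ => by ring

/-- `tau` on columns and matrices -/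
def tc (Q : ℂ) (p : Col) : Col := fun l => tau Q (p l)

def tm (Q : ℂ) (b : Mt) : Mt := fun i l => tau Q (b i l)

theorem tc_add (Q : ℂ) (p q : Col) : tc Q (p + q) = tc Q p + tc Q q := rfl

theorem tc_smul (Q : ℂ) (c : ℂ) (p : Col) : tc Q (c • p) = c • tc Q p := rfl

theorem tc_mv (Q : ℂ) (b : Mt) (p : Col) : tc Q (mv b p) = mv (tm Q b) (tc Q p) := by
  ext i z
  simp [tc, tm, mv, Finset.sum_apply]

/-- the operator of `(b, n)` on `G` -/
def act (Q : ℂ) (b n : Mt) : Module.End ℂ G where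
  toFun x := (mv b x.1, mv b x.2 + mv n (tc Q x.1))
  map_add' x y := by
    refine Prod.ext ?_ ?_
    · exact mv_add _ _ _
    · show mv b (x.2 + y.2) + mv n (tc Q (x.1 + y.1)) = _
      rw [mv_add, tc_add, mv_add]
      show _ = mv b x.2 + mv n (tc Q x.1) + (mv b y.2 + mv n (tc Q y.1))
      abel
  map_smul' c x := by
    refine Prod.ext ?_ ?_
    · exact mv_smul _ _ _
    · show mv b (c • x.2) + mv n (tc Q (c • x.1)) = c • (mv b x.2 + mv n (tc Q x.1))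
      rw [mv_smul, tc_smul, mv_smul, smul_add]

theorem act_apply (Q : ℂ) (b n : Mt) (x : G) :
    act Q b n x = (mv b x.1, mv b x.2 + mv n (tc Q x.1)) := rfl

/-- scalar matrices -/
def sc (c : ℂ) : Mt := fun i j => if i = j then fun _ => c else 0

theorem sc_mv (c : ℂ) (p : Col) : mv (sc c) p = c • p := by
  ext i z
  simp only [mv, sc, Finset.sum_apply, Pi.mul_apply, Pi.smul_apply, smul_eq_mul]
  rw [Finset.sum_eq_single i]
  · simp
  · intro l _ hl
    simp [Ne.symm hl]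
  · simp

theorem zero_mv (p : Col) : mv 0 p = 0 := by
  ext i z
  simp [mv, Finset.sum_apply]

theorem act_mul (Q : ℂ) (b n b' n' : Mt) : act Q b n * act Q b' n' =
    act Q (mm b b') (mm b n' + mm n (tm Q b')) := by
  refine LinearMap.ext fun x => ?_
  rw [Module.End.mul_apply, act_apply, act_apply, act_apply]
  refine Prod.ext ?_ ?_
  · exact mv_mv _ _ _
  · show mv b (mv b' x.2 + mv n' (tc Q x.1)) + mv n (tc Q (mv b' x.1)) = _
    rw [mv_add, tc_mv, mv_mv, mv_mv, mv_mv]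
    show _ = mv (mm b b') x.2 + mv (mm b n' + mm n (tm Q b')) (tc Q x.1)
    rw [add_mv]
    abel

theorem act_add (Q : ℂ) (b n b' n' : Mt) : act Q b n + act Q b' n' =
    act Q (b + b') (n + n') := by
  refine LinearMap.ext fun x => ?_
  rw [LinearMap.add_apply, act_apply, act_apply, act_apply]
  refine Prod.ext ?_ ?_
  · exact (add_mv _ _ _).symm
  · show mv b x.2 + mv n (tc Q x.1) + (mv b' x.2 + mv n' (tc Q x.1)) = _
    show _ = mv (b + b') x.2 + mv (n + n') (tc Q x.1)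
    rw [add_mv, add_mv]
    abel

theorem act_sc (Q c : ℂ) : act Q (sc c) 0 = algebraMap ℂ (Module.End ℂ G) c := by
  refine LinearMap.ext fun x => ?_
  rw [act_apply, Module.algebraMap_end_apply]
  refine Prod.ext ?_ ?_
  · exact sc_mv _ _
  · show mv (sc c) x.2 + mv 0 (tc Q x.1) = c • x.2
    rw [sc_mv, zero_mv, add_zero]

/-- the degree `3 (j - i)` -/
def dg (i j : Fin 3) : ℤ := 3 * ((j : ℕ) : ℤ) - 3 * ((i : ℕ) : ℤ)

/-- `B_ij = Th (3 (j-i)) 0` -/
def Bs : Submodule ℂ Mt where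
  carrier := {b | ∀ i j, b i j ∈ Th (dg i j) 0}
  add_mem' ha hb := fun i j => (Th _ _).add_mem (ha i j) (hb i j)
  zero_mem' := fun _ _ => (Th _ _).zero_mem
  smul_mem' c _ ha := fun i j => (Th _ _).smul_mem c (ha i j)

/-- `N_ij = Th (12 + 3 (j-i)) (-3 j Q)` -/
def Ns (Q : ℂ) : Submodule ℂ Mt where
  carrier := {n | ∀ i j, n i j ∈ Th (12 + dg i j) (-(3 * ((j : ℕ) : ℂ) * Q))}
  add_mem' ha hb := fun i j => (Th _ _).add_mem (ha i j) (hb i j)
  zero_mem' := fun _ _ => (Th _ _).zero_mem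
  smul_mem' c _ ha := fun i j => (Th _ _).smul_mem c (ha i j)

theorem tau_mem {n : ℤ} {a : ℂ} {f : ℂ → ℂ} (hf : f ∈ Th n a) (Q : ℂ) :
    tau Q f ∈ Th n (a - n * Q) := Th.shift hf Q

theorem Th_congr {n m : ℤ} {a b : ℂ} {f : ℂ → ℂ} (hf : f ∈ Th n a) (hn : n = m) (ha : a = b) :
    f ∈ Th m b := by
  subst hn; subst ha; exact hf

theorem Th_mul {n m : ℤ} {a b : ℂ} {f g : ℂ → ℂ} (hf : f ∈ Th n a) (hg : g ∈ Th m b) :
    f * g ∈ Th (n + m) (a + b) := Th.mul hf hg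

theorem mmB {b c : Mt} (hb : b ∈ Bs) (hc : c ∈ Bs) : mm b c ∈ Bs := fun i j => by
  refine Submodule.sum_mem _ fun l _ => ?_
  exact Th_congr (Th_mul (hb i l) (hc l j)) (by unfold dg; ring) (by ring)

theorem mmBN {Q : ℂ} {b n : Mt} (hb : b ∈ Bs) (hn : n ∈ Ns Q) : mm b n ∈ Ns Q := fun i j => by
  refine Submodule.sum_mem _ fun l _ => ?_
  exact Th_congr (Th_mul (hb i l) (hn l j)) (by unfold dg; ring) (by ring)

theorem mmNB {Q : ℂ} {b n : Mt} (hb : b ∈ Bs) (hn : n ∈ Ns Q) : mm n (tm Q b) ∈ Ns Q :=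
  fun i j => by
  refine Submodule.sum_mem _ fun l _ => ?_
  exact Th_congr (Th_mul (hn i l) (tau_mem (hb l j) Q)) (by unfold dg; ring)
    (by unfold dg; push_cast; ring)

theorem const_mem (c : ℂ) : (fun _ => c) ∈ Th 0 0 := by
  refine ⟨differentiable_const c, fun _ => rfl, fun z => ?_⟩
  simp

theorem sc_mem (c : ℂ) : sc c ∈ Bs := fun i j => by
  unfold sc
  split_ifs with h
  · subst h
    rw [show dg i i = 0 by unfold dg; ring]
    exact const_mem c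
  · exact Submodule.zero_mem _

/-- the algebra -/
def A (Q : ℂ) : Subalgebra ℂ (Module.End ℂ G) where
  carrier := {φ | ∃ b ∈ Bs, ∃ n ∈ Ns Q, φ = act Q b n}
  mul_mem' := by
    rintro _ _ ⟨b, hb, n, hn, rfl⟩ ⟨b', hb', n', hn', rfl⟩
    exact ⟨_, mmB hb hb', _, (Ns Q).add_mem (mmBN hb hn') (mmNB hb' hn), act_mul _ _ _ _ _⟩
  add_mem' := by
    rintro _ _ ⟨b, hb, n, hn, rfl⟩ ⟨b', hb', n', hn', rfl⟩
    exact ⟨_, Bs.add_mem hb hb', _, (Ns Q).add_mem hn hn', act_add _ _ _ _ _⟩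
  algebraMap_mem' c := ⟨sc c, sc_mem c, 0, Submodule.zero_mem _, (act_sc Q c).symm⟩

/-- the element `(b, n)` of `A` -/
def mk {Q : ℂ} {b n : Mt} (hb : b ∈ Bs) (hn : n ∈ Ns Q) : A Q := ⟨act Q b n, b, hb, n, hn, rfl⟩

/-- the unit columns -/
def u0 (j : Fin 3) : Col := fun i => if i = j then 1 else 0

theorem mv_u0 (b : Mt) (j : Fin 3) : mv b (u0 j) = fun i => b i j := by
  ext i z
  simp only [mv, u0, Finset.sum_apply, Pi.mul_apply]
  rw [Finset.sum_eq_single j]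
  · simp
  · intro l _ hl
    simp [hl]
  · simp

theorem tc_u0 (Q : ℂ) (j : Fin 3) : tc Q (u0 j) = u0 j := by
  ext i z
  simp only [tc, u0, tau_apply]
  split_ifs <;> rfl

/-- the matrix `b` of an element `(b, n)` -/
def bm {Q : ℂ} (a : A Q) : Mt := fun i j => (a.1 (u0 j, 0)).1 i

/-- the matrix `n` of an element `(b, n)` -/
def nm {Q : ℂ} (a : A Q) : Mt := fun i j => (a.1 (u0 j, 0)).2 i

theorem mv_zero (b : Mt) : mv b 0 = 0 := by
  ext i z
  simp [mv, Finset.sum_apply]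

theorem act_u0 (Q : ℂ) (b n : Mt) (j : Fin 3) :
    act Q b n (u0 j, 0) = (fun i => b i j, fun i => n i j) := by
  rw [act_apply]
  show (mv b (u0 j), mv b 0 + mv n (tc Q (u0 j))) = _
  rw [tc_u0, mv_zero, zero_add, mv_u0, mv_u0]

theorem bm_mk {Q : ℂ} {b n : Mt} (hb : b ∈ Bs) (hn : n ∈ Ns Q) : bm (mk hb hn) = b := by
  ext i j : 2
  show (act Q b n (u0 j, 0)).1 i = b i j
  rw [act_u0]

theorem nm_mk {Q : ℂ} {b n : Mt} (hb : b ∈ Bs) (hn : n ∈ Ns Q) : nm (mk hb hn) = n := by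
  ext i j : 2
  show (act Q b n (u0 j, 0)).2 i = n i j
  rw [act_u0]

theorem exists_mk {Q : ℂ} (a : A Q) : ∃ (b n : Mt) (hb : b ∈ Bs) (hn : n ∈ Ns Q), a = mk hb hn := by
  obtain ⟨a, b, hb, n, hn, rfl⟩ := a
  exact ⟨b, n, hb, hn, rfl⟩

theorem bm_mem {Q : ℂ} (a : A Q) : bm a ∈ Bs := by
  obtain ⟨b, n, hb, hn, rfl⟩ := exists_mk a
  rwa [bm_mk]

theorem nm_mem {Q : ℂ} (a : A Q) : nm a ∈ Ns Q := by
  obtain ⟨b, n, hb, hn, rfl⟩ := exists_mk a
  rwa [nm_mk]

theorem coe_eq {Q : ℂ} (a : A Q) : (a : Module.End ℂ G) = act Q (bm a) (nm a) := by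
  obtain ⟨b, n, hb, hn, rfl⟩ := exists_mk a
  rw [bm_mk, nm_mk]
  rfl

theorem ext_A {Q : ℂ} {a b : A Q} (h1 : bm a = bm b) (h2 : nm a = nm b) : a = b := by
  apply Subtype.ext
  rw [coe_eq, coe_eq, h1, h2]

theorem bm_mul {Q : ℂ} (a b : A Q) : bm (a * b) = mm (bm a) (bm b) := by
  obtain ⟨b1, n1, hb1, hn1, rfl⟩ := exists_mk a
  obtain ⟨b2, n2, hb2, hn2, rfl⟩ := exists_mk b
  have : mk hb1 hn1 * mk hb2 hn2 = mk (mmB hb1 hb2) ((Ns Q).add_mem (mmBN hb1 hn2) (mmNB hb2 hn1)) :=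
    Subtype.ext (act_mul _ _ _ _ _)
  rw [this, bm_mk, bm_mk, bm_mk]

theorem nm_mul {Q : ℂ} (a b : A Q) : nm (a * b) = mm (bm a) (nm b) + mm (nm a) (tm Q (bm b)) := by
  obtain ⟨b1, n1, hb1, hn1, rfl⟩ := exists_mk a
  obtain ⟨b2, n2, hb2, hn2, rfl⟩ := exists_mk b
  have : mk hb1 hn1 * mk hb2 hn2 = mk (mmB hb1 hb2) ((Ns Q).add_mem (mmBN hb1 hn2) (mmNB hb2 hn1)) :=
    Subtype.ext (act_mul _ _ _ _ _)
  rw [this, nm_mk, nm_mk, nm_mk, bm_mk, bm_mk]

theorem bm_add {Q : ℂ} (a b : A Q) : bm (a + b) = bm a + bm b := rfl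

theorem nm_add {Q : ℂ} (a b : A Q) : nm (a + b) = nm a + nm b := rfl

theorem bm_smul {Q : ℂ} (c : ℂ) (a : A Q) : bm (c • a) = c • bm a := rfl

theorem nm_smul {Q : ℂ} (c : ℂ) (a : A Q) : nm (c • a) = c • nm a := rfl

theorem bm_one {Q : ℂ} : bm (1 : A Q) = sc 1 := by
  have : (1 : A Q) = mk (sc_mem 1) (Submodule.zero_mem (Ns Q)) := by
    apply Subtype.ext
    show (1 : Module.End ℂ G) = act Q (sc 1) 0
    rw [act_sc, map_one]
  rw [this, bm_mk]

/-- `A` acts on `G` -/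
theorem smul_G {Q : ℂ} (a : A Q) (x : G) :
    a • x = (mv (bm a) x.1, mv (bm a) x.2 + mv (nm a) (tc Q x.1)) := by
  show (a : Module.End ℂ G) x = _
  rw [coe_eq, act_apply]

end Pool.Agent.Helper272_HN
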