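import Pool.Agent.Helper272_HN.Mod
import Pool.Agent.H796H.Theta3

set_option autoImplicit false

open Complex Module
open Pool.Agent.H796H

namespace Pool.Agent.Helper272_HN

theorem finTh_all (n : ℤ) (a : ℂ) (h : n = 0 → a = 0) : FiniteDimensional ℂ (Th n a) := by
  rcases lt_trichotomy n 0 with hn | hn | hn
  · have h1 : Th n a = ⊥ := eq_bot_iff.2 fun f hf => negTh hn hf
    rw [h1]
    infer_instance
  · subst hn
    have h1 := h rfl
    subst h1
    have h2 : Th 0 0 = Submodule.span ℂ {(1 : ℂ → ℂ)} := by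
      apply le_antisymm
      · intro f hf
        obtain ⟨c, rfl⟩ := zeroTh hf
        refine Submodule.mem_span_singleton.2 ⟨c, ?_⟩
        funext z
        simp
      · rw [Submodule.span_singleton_le_iff_mem]
        exact constTh 1
    rw [h2]
    infer_instance
  · exact finTh hn a

instance finBs : FiniteDimensional ℂ Bs := by
  have : ∀ i j : Fin 3, FiniteDimensional ℂ (Th (dg i j) 0) := fun i j => finTh_all _ _ fun _ => rfl
  let f : Bs →ₗ[ℂ] (∀ i j : Fin 3, Th (dg i j) 0) :=
    { toFun := fun b i j => ⟨b.1 i j, b.2 i j⟩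
      map_add' := fun _ _ => rfl
      map_smul' := fun _ _ => rfl }
  refine FiniteDimensional.of_injective f fun b c h => ?_
  apply Subtype.ext
  funext i j
  exact congrArg Subtype.val (congrFun (congrFun h i) j)

instance finNs (Q : ℂ) : FiniteDimensional ℂ (Ns Q) := by
  have : ∀ i j : Fin 3, FiniteDimensional ℂ (Th (12 + dg i j) (-(3 * ((j : ℕ) : ℂ) * Q))) := by
    intro i j
    refine finTh_all _ _ fun h => ?_
    exfalso
    have h1 := i.2
    have h2 := j.2
    unfold dg at h
    omega
  let f : Ns Q →ₗ[ℂ] (∀ i j : Fin 3, Th (12 + dg i j) (-(3 * ((j : ℕ) : ℂ) * Q))) :=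
    { toFun := fun b i j => ⟨b.1 i j, b.2 i j⟩
      map_add' := fun _ _ => rfl
      map_smul' := fun _ _ => rfl }
  refine FiniteDimensional.of_injective f fun b c h => ?_
  apply Subtype.ext
  funext i j
  exact congrArg Subtype.val (congrFun (congrFun h i) j)

/-- `(b, n) ↦` the element of `A` -/
def toA (Q : ℂ) : (Bs × Ns Q) →ₗ[ℂ] A Q where
  toFun x := mk x.1.2 x.2.2
  map_add' x y := Subtype.ext (act_add _ _ _ _ _).symm
  map_smul' c x := by
    apply Subtype.ext
    show act Q (c • x.1.1) (c • x.2.1) = c • act Q x.1.1 x.2.1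
    refine LinearMap.ext fun g => ?_
    rw [LinearMap.smul_apply, act_apply, act_apply, smul_mv, smul_mv, smul_mv, ← smul_add]
    rfl

theorem toA_surj (Q : ℂ) : Function.Surjective (toA Q) := by
  intro a
  obtain ⟨b, n, hb, hn, rfl⟩ := exists_mk a
  exact ⟨(⟨b, hb⟩, ⟨n, hn⟩), rfl⟩

instance finA (Q : ℂ) : FiniteDimensional ℂ (A Q) :=
  Module.Finite.of_surjective (toA Q) (toA_surj Q)

end Pool.Agent.Helper272_HN
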