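import Pool.Agent.Helper272_HN.Defs

set_option autoImplicit false

open Complex Module
open Pool.Agent.H796H

namespace Pool.Agent.Helper272_HN

variable (Q : ℂ)

/-- shortcuts for the action of `A Q` on `G` -/
instance (priority := 5000) instModG : Module (A Q) G := inferInstance
instance (priority := 5000) instSMulG : SMul (A Q) G := (instModG Q).toSMul
instance (priority := 5000) instTowerG : IsScalarTower ℂ (A Q) G :=
  ⟨fun c a x => by
    show ((c • a : A Q) : Module.End ℂ G) x = c • ((a : Module.End ℂ G) x)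
    rfl⟩

instance (priority := 5000) instModSub (p : Submodule (A Q) G) : Module (A Q) p := p.module
instance (priority := 5000) instSMulSub (p : Submodule (A Q) G) : SMul (A Q) p :=
  (instModSub Q p).toSMul
instance (priority := 5000) instModSubC (p : Submodule (A Q) G) : Module ℂ p := p.module'
instance (priority := 5000) instTowerSub (p : Submodule (A Q) G) : IsScalarTower ℂ (A Q) p :=
  ⟨fun c a x => Subtype.ext (smul_assoc c a (x : G))⟩

/-- `A e_j` as a submodule of `G` -/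
def E (j : Fin 3) : Submodule (A Q) G where
  carrier := {x | (∀ i, x.1 i ∈ Th (dg i j) 0) ∧
    ∀ i, x.2 i ∈ Th (12 + dg i j) (-(3 * ((j : ℕ) : ℂ) * Q))}
  add_mem' := by
    rintro x y ⟨hx1, hx2⟩ ⟨hy1, hy2⟩
    exact ⟨fun i => (Th _ _).add_mem (hx1 i) (hy1 i), fun i => (Th _ _).add_mem (hx2 i) (hy2 i)⟩
  zero_mem' := ⟨fun i => (Th (dg i j) 0).zero_mem,
    fun i => (Th (12 + dg i j) (-(3 * ((j : ℕ) : ℂ) * Q))).zero_mem⟩
  smul_mem' := by
    rintro a x ⟨hx1, hx2⟩
    rw [smul_G]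
    refine ⟨fun i => ?_, fun i => ?_⟩
    · show (∑ l, bm a i l * x.1 l) ∈ Th (dg i j) 0
      refine Submodule.sum_mem _ fun l _ => ?_
      exact Th_congr (Th_mul (bm_mem a i l) (hx1 l)) (by unfold dg; ring) (by ring)
    · show (∑ l, bm a i l * x.2 l) + (∑ l, nm a i l * tau Q (x.1 l)) ∈
        Th (12 + dg i j) (-(3 * ((j : ℕ) : ℂ) * Q))
      refine Submodule.add_mem _ ?_ ?_
      · refine Submodule.sum_mem _ fun l _ => ?_
        exact Th_congr (Th_mul (bm_mem a i l) (hx2 l)) (by unfold dg; ring) (by ring)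
      · refine Submodule.sum_mem _ fun l _ => ?_
        exact Th_congr (Th_mul (nm_mem a i l) (tau_mem (hx1 l) Q)) (by unfold dg; ring)
          (by unfold dg; push_cast; ring)

theorem mem_E {j : Fin 3} {x : G} : x ∈ E Q j ↔ (∀ i, x.1 i ∈ Th (dg i j) 0) ∧
    ∀ i, x.2 i ∈ Th (12 + dg i j) (-(3 * ((j : ℕ) : ℂ) * Q)) := Iff.rfl

theorem mv_eval (b : Mt) (p : Col) (i : Fin 3) (z : ℂ) :
    mv b p i z = ∑ l, b i l z * p l z := by
  simp [mv, Finset.sum_apply]

theorem tc_eval (p : Col) (i : Fin 3) (z : ℂ) : tc Q p i z = p i (z - Q) := rfl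

/-- `I'_P` -/
def I1 (P : ℂ) : Submodule (A Q) G where
  carrier := {x | x ∈ E Q 2 ∧ ∀ i, x.1 i P = 0}
  add_mem' := by
    rintro x y ⟨hx1, hx2⟩ ⟨hy1, hy2⟩
    refine ⟨(E Q 2).add_mem hx1 hy1, fun i => ?_⟩
    show x.1 i P + y.1 i P = 0
    rw [hx2, hy2, add_zero]
  zero_mem' := ⟨(E Q 2).zero_mem, fun _ => rfl⟩
  smul_mem' := by
    rintro a x ⟨hx1, hx2⟩
    refine ⟨(E Q 2).smul_mem a hx1, fun i => ?_⟩
    rw [smul_G]
    show mv (bm a) x.1 i P = 0
    rw [mv_eval]
    exact Finset.sum_eq_zero fun l _ => by rw [hx2, mul_zero]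

/-- `I_P` -/
def I2 (P : ℂ) : Submodule (A Q) G where
  carrier := {x | x ∈ E Q 2 ∧ (∀ i, x.1 i P = 0) ∧ ∀ i, x.2 i (P + Q) = 0}
  add_mem' := by
    rintro x y ⟨hx1, hx2, hx3⟩ ⟨hy1, hy2, hy3⟩
    refine ⟨(E Q 2).add_mem hx1 hy1, fun i => ?_, fun i => ?_⟩
    · show x.1 i P + y.1 i P = 0
      rw [hx2, hy2, add_zero]
    · show x.2 i (P + Q) + y.2 i (P + Q) = 0
      rw [hx3, hy3, add_zero]
  zero_mem' := ⟨(E Q 2).zero_mem, fun _ => rfl, fun _ => rfl⟩
  smul_mem' := by
    rintro a x ⟨hx1, hx2, hx3⟩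
    refine ⟨(E Q 2).smul_mem a hx1, fun i => ?_, fun i => ?_⟩
    · rw [smul_G]
      show mv (bm a) x.1 i P = 0
      rw [mv_eval]
      exact Finset.sum_eq_zero fun l _ => by rw [hx2, mul_zero]
    · rw [smul_G]
      show mv (bm a) x.2 i (P + Q) + mv (nm a) (tc Q x.1) i (P + Q) = 0
      rw [mv_eval, mv_eval, Finset.sum_eq_zero fun l _ => by rw [hx3, mul_zero],
        Finset.sum_eq_zero fun l _ => by rw [tc_eval, add_sub_cancel_right, hx2, mul_zero], add_zero]

theorem mem_I1 {P : ℂ} {x : G} : x ∈ I1 Q P ↔ x ∈ E Q 2 ∧ ∀ i, x.1 i P = 0 := Iff.rfl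

theorem mem_I2 {P : ℂ} {x : G} :
    x ∈ I2 Q P ↔ x ∈ E Q 2 ∧ (∀ i, x.1 i P = 0) ∧ ∀ i, x.2 i (P + Q) = 0 := Iff.rfl

/-- evaluation at `P`: `A → End (ℂ^3)` -/
def evA (P : ℂ) : A Q →ₐ[ℂ] Module.End ℂ (Fin 3 → ℂ) where
  toFun a :=
    { toFun := fun x i => ∑ l, bm a i l P * x l
      map_add' := fun x y => by
        funext i
        simp [mul_add, Finset.sum_add_distrib]
      map_smul' := fun c x => by
        funext i
        simp only [Pi.smul_apply, smul_eq_mul, RingHom.id_apply, Finset.mul_sum]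
        exact Finset.sum_congr rfl fun l _ => by ring }
  map_one' := by
    refine LinearMap.ext fun x => funext fun i => ?_
    show ∑ l, bm (1 : A Q) i l P * x l = x i
    rw [bm_one, Finset.sum_eq_single i]
    · simp [sc]
    · intro l _ hl
      simp [sc, Ne.symm hl]
    · simp
  map_mul' a b := by
    refine LinearMap.ext fun x => funext fun i => ?_
    show ∑ l, bm (a * b) i l P * x l = ∑ l, bm a i l P * ∑ m, bm b l m P * x m
    simp only [bm_mul, mm, Finset.sum_apply, Pi.mul_apply, Finset.mul_sum, Finset.sum_mul]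
    rw [Finset.sum_comm]
    exact Finset.sum_congr rfl fun l _ => Finset.sum_congr rfl fun m _ => by ring
  map_zero' := by
    refine LinearMap.ext fun x => funext fun i => ?_
    show ∑ l, bm (0 : A Q) i l P * x l = 0
    exact Finset.sum_eq_zero fun l _ => by
      rw [show bm (0 : A Q) i l P = 0 from rfl, zero_mul]
  map_add' a b := by
    refine LinearMap.ext fun x => funext fun i => ?_
    show ∑ l, bm (a + b) i l P * x l = ∑ l, bm a i l P * x l + ∑ l, bm b i l P * x l
    rw [← Finset.sum_add_distrib]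
    exact Finset.sum_congr rfl fun l _ => by
      rw [show bm (a + b) i l P = bm a i l P + bm b i l P from rfl, add_mul]
  commutes' c := by
    refine LinearMap.ext fun x => funext fun i => ?_
    show ∑ l, bm (algebraMap ℂ (A Q) c) i l P * x l = c * x i
    have h : bm (algebraMap ℂ (A Q) c) = c • sc 1 := by
      rw [Algebra.algebraMap_eq_smul_one, bm_smul, bm_one]
    rw [h, Finset.sum_eq_single i]
    · simp [sc]
    · intro l _ hl
      simp [sc, Ne.symm hl]
    · simp

/-- the point module `X_P = ℂ^3` -/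
@[nolint unusedArguments]
def X (_Q _P : ℂ) : Type := Fin 3 → ℂ

instance (P : ℂ) : AddCommGroup (X Q P) := inferInstanceAs (AddCommGroup (Fin 3 → ℂ))
instance (P : ℂ) : Module ℂ (X Q P) := inferInstanceAs (Module ℂ (Fin 3 → ℂ))
instance (P : ℂ) : FiniteDimensional ℂ (X Q P) := inferInstanceAs (FiniteDimensional ℂ (Fin 3 → ℂ))
instance (P : ℂ) : Module (Module.End ℂ (Fin 3 → ℂ)) (X Q P) :=
  inferInstanceAs (Module (Module.End ℂ (Fin 3 → ℂ)) (Fin 3 → ℂ))
instance (P : ℂ) : Module (A Q) (X Q P) := Module.compHom (X Q P) (evA Q P).toRingHom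

theorem smul_X {P : ℂ} (a : A Q) (x : X Q P) (i : Fin 3) :
    (show Fin 3 → ℂ from a • x) i = ∑ l, bm a i l P * (show Fin 3 → ℂ from x) l := rfl

instance (P : ℂ) : IsScalarTower ℂ (A Q) (X Q P) where
  smul_assoc c a x := by
    funext i
    show ∑ l, bm (c • a) i l P * _ = c * ∑ l, bm a i l P * _
    rw [Finset.mul_sum]
    exact Finset.sum_congr rfl fun l _ => by
      rw [show bm (c • a) i l P = c * bm a i l P from rfl]; ring

example : IsScalarTower ℂ (A Q) G := inferInstance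
example (j : Fin 3) : Module ℂ (E Q j) := inferInstance
example (j : Fin 3) : IsScalarTower ℂ (A Q) (E Q j) := inferInstance
example (j : Fin 3) : Module (A Q) (E Q j × E Q j) := inferInstance

end Pool.Agent.Helper272_HN
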