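import Pool.Agent.H796H.Seq
import Pool.Agent.Helper272_HN.Mod
import Pool.Agent.H702Han.Pd

set_option autoImplicit false

/-!
Project HAN: section 7 of paper 207, concrete part: the algebra `A Q` does not have bounded
projective dimension.
-/

open Complex Module
open Pool.Agent.H796H Pool.Agent.H702Han

namespace Pool.Agent.Helper272_HN

variable {Q : ℂ}

/-- the pencil map -/
noncomputable def penS (Q : ℂ) {a : ℂ} {u v : ℂ → ℂ} (hu : u ∈ Th 2 a) (hv : v ∈ Th 2 a) :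
    (GT Q 3 0 × GT Q 3 0) →ₗ[A Q] GT Q 5 a :=
  LinearMap.coprod
    (LinearMap.codRestrict (GT Q 5 a) ((mG Q u).comp (GT Q 3 0).subtype)
      (fun x => mG_mem hu x.2 (by norm_num) (by ring)))
    (LinearMap.codRestrict (GT Q 5 a) ((mG Q v).comp (GT Q 3 0).subtype)
      (fun x => mG_mem hv x.2 (by norm_num) (by ring)))

theorem penS_coe {a : ℂ} {u v : ℂ → ℂ} (hu : u ∈ Th 2 a) (hv : v ∈ Th 2 a)
    (x : GT Q 3 0 × GT Q 3 0) :
    ((penS Q hu hv x : GT Q 5 a) : G) = mG Q u (x.1 : G) + mG Q v (x.2 : G) := rfl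

/-- the elements with vanishing `B`-part -/
def KB (Q : ℂ) : Submodule (A Q) (GT Q 3 0 × GT Q 3 0) where
  carrier := {x | (x.1 : G).1 = 0 ∧ (x.2 : G).1 = 0}
  add_mem' := by
    rintro x y ⟨h1, h2⟩ ⟨h3, h4⟩
    refine ⟨?_, ?_⟩
    · show (x.1 : G).1 + (y.1 : G).1 = 0
      rw [h1, h3, add_zero]
    · show (x.2 : G).1 + (y.2 : G).1 = 0
      rw [h2, h4, add_zero]
  zero_mem' := ⟨rfl, rfl⟩
  smul_mem' := by
    rintro a x ⟨h1, h2⟩
    refine ⟨?_, ?_⟩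
    · show (a • (x.1 : G)).1 = 0
      rw [smul_G, h1]
      exact mv_zero _
    · show (a • (x.2 : G)).1 = 0
      rw [smul_G, h2]
      exact mv_zero _

theorem mem_KB {x : GT Q 3 0 × GT Q 3 0} : x ∈ KB Q ↔ (x.1 : G).1 = 0 ∧ (x.2 : G).1 = 0 :=
  Iff.rfl

/-- the idempotent `e_1` -/
noncomputable def e1 (Q : ℂ) : A Q := colA Q 1 (epsE Q 1)

theorem e1_row {x : G} (hx : e1 Q • x = x) {i : Fin 3} (hi : i ≠ 1) : x.1 i = 0 := by
  have h : (e1 Q • x).1 i = x.1 i := by rw [hx]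
  rw [smul_G] at h
  rw [← h]
  show (∑ l, bm (e1 Q) i l * x.1 l) = 0
  refine Finset.sum_eq_zero fun l _ => ?_
  have hb : bm (e1 Q) = colM 1 (u0 1) := bm_colA 1 (epsE Q 1)
  rw [hb]
  unfold colM u0
  rw [if_neg hi]
  simp

theorem e1_eps : e1 Q • eps 1 = eps 1 := colA_eps 1 (epsE Q 1)

theorem GT_e1_zero {x : GT Q 3 0} (hx : e1 Q • x = x) : ∃ c : ℂ, (x : G).1 = fun i => c • u0 1 i := by
  have hx' : e1 Q • (x : G) = (x : G) := congrArg Subtype.val hx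
  have h1 : (x : G).1 1 ∈ Th 0 0 := Th_congr (x.2.1 1) (by norm_num) rfl
  obtain ⟨c, hc⟩ := zeroTh h1
  refine ⟨c, funext fun i => ?_⟩
  by_cases hi : i = 1
  · subst hi
    rw [hc]
    unfold u0
    rw [if_pos rfl]
    funext z
    simp
  · rw [e1_row hx' hi]
    unfold u0
    rw [if_neg hi, smul_zero]

/-- the element of `Z` coming from `A e_0` -/
noncomputable def z0 (p : ℂ) : G := (fun i => if i = 0 then thp p else 0, 0)

theorem z0_mem (p : ℂ) : z0 p ∈ GT Q 1 (eth - p) := by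
  refine ⟨fun i => ?_, fun i => (Th _ _).zero_mem⟩
  show (if i = 0 then thp p else 0) ∈ _
  split_ifs with h
  · subst h
    exact Th_congr (thp_mem p) (by norm_num) rfl
  · exact (Th _ _).zero_mem

/-- Section 7: `P → I` does not split. -/
theorem not_proj_I {p : ℂ} {u v : ℂ → ℂ} (hu : u ∈ Th 2 (p - eth)) (hv : v ∈ Th 2 (p - eth))
    (hind : ∀ c d : ℂ, c • u + d • v = 0 → c = 0 ∧ d = 0)
    (hg : Function.Surjective (penS Q hu hv)) (hI : Module.Projective (A Q) (GT Q 5 (p - eth))) :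
    False := by
  have hE : eps 1 ∈ GT Q 3 0 := eps_mem 1
  have hx : mG Q (-v) (z0 p) ∈ GT Q 3 0 :=
    mG_mem (m := 1) (k := 2) ((Th 2 (p - eth)).neg_mem hv) (z0_mem p) (by norm_num) (by ring)
  have hy : mG Q u (z0 p) ∈ GT Q 3 0 :=
    mG_mem (m := 1) (k := 2) hu (z0_mem p) (by norm_num) (by ring)
  let a1 : A Q := colA Q 1 ⟨mG Q (-v) (z0 p), hx⟩
  let a2 : A Q := colA Q 1 ⟨mG Q u (z0 p), hy⟩
  have ha1 : a1 • eps 1 = mG Q (-v) (z0 p) := colA_eps 1 ⟨mG Q (-v) (z0 p), hx⟩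
  have ha2 : a2 • eps 1 = mG Q u (z0 p) := colA_eps 1 ⟨mG Q u (z0 p), hy⟩
  let x1 : GT Q 3 0 × GT Q 3 0 := (⟨eps 1, hE⟩, 0)
  let x2 : GT Q 3 0 × GT Q 3 0 := (0, ⟨eps 1, hE⟩)
  have hs : a1 • x1 + a2 • x2 = (⟨mG Q (-v) (z0 p), hx⟩, ⟨mG Q u (z0 p), hy⟩) := by
    refine Prod.ext (Subtype.ext ?_) (Subtype.ext ?_)
    · show a1 • eps 1 + a2 • (0 : G) = _
      rw [smul_zero, add_zero, ha1]
    · show a1 • (0 : G) + a2 • eps 1 = _
      rw [smul_zero, zero_add, ha2]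
  refine nosplit hI (penS Q hu hv) hg (KB Q) (e1 Q) x1 x2 ?_ ?_ ?_ a1 a2 ?_ ?_
  · refine Prod.ext (Subtype.ext ?_) (smul_zero _)
    exact e1_eps
  · refine Prod.ext (smul_zero _) (Subtype.ext ?_)
    exact e1_eps
  · rintro ⟨x, y⟩ hz he
    have he1 : e1 Q • x = x := congrArg Prod.fst he
    have he2 : e1 Q • y = y := congrArg Prod.snd he
    obtain ⟨c, hc⟩ := GT_e1_zero he1
    obtain ⟨d, hd⟩ := GT_e1_zero he2
    have h0 : mG Q u (x : G) + mG Q v (y : G) = 0 := congrArg Subtype.val hz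
    have h1 : u * (x : G).1 1 + v * (y : G).1 1 = 0 := congrFun (congrArg Prod.fst h0) 1
    have h2 : c • u + d • v = 0 := by
      rw [hc, hd] at h1
      rw [← h1]
      unfold u0
      funext z
      simp
    obtain ⟨rfl, rfl⟩ := hind c d h2
    refine ⟨?_, ?_⟩
    · show (x : G).1 = 0
      rw [hc]; funext i; exact zero_smul _ _
    · show (y : G).1 = 0
      rw [hd]; funext i; exact zero_smul _ _
  · rw [hs]
    apply Subtype.ext
    rw [penS_coe]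
    show mG Q u (mG Q (-v) (z0 p)) + mG Q v (mG Q u (z0 p)) = 0
    refine Prod.ext (funext fun i => ?_) (funext fun i => ?_)
    · show u * (-v * (z0 p).1 i) + v * (u * (z0 p).1 i) = 0
      ring
    · show tau Q u * (tau Q (-v) * (z0 p).2 i) + tau Q v * (tau Q u * (z0 p).2 i) = 0
      rw [show tau Q (-v) = - tau Q v from map_neg _ _]
      ring
  · rw [hs]
    rintro ⟨-, h2⟩
    have h3 : u * thp p = 0 := congrFun h2 0
    have hu0 : u ≠ 0 := by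
      rintro rfl
      exact one_ne_zero (hind 1 0 (by simp)).1
    rcases ent_mul hu.1 (thp_mem p).1 h3 with h | h
    · exact hu0 h
    · exact thp_ne p h

/-- Section 7: no bound for the projective dimension of all modules. -/
theorem not_bdd (Q : ℂ) : ¬ Bdd (A Q) := by
  intro hb
  have w0 : Module.Projective (A Q) (GT Q 3 0) := proj3
  have w1 : Module.Projective (A Q) (GT Q 3 0 × GT Q 3 0) := inferInstance
  have s1 : ∀ p, SES (A Q) (Pool.Agent.H796H.I1 Q p) (GT Q 6 0) (Pool.Agent.H796H.X Q p) :=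
    fun p => ⟨Pool.Agent.H796H.i1 Q p, q1 Q p, i1_inj p, q1_surj p, ex1 p⟩
  have s2 : ∀ p, SES (A Q) (GT Q 5 (p - eth)) (Pool.Agent.H796H.I1 Q p)
      (Pool.Agent.H796H.X Q (p + Q)) :=
    fun p => ⟨i2 Q p, q2 Q p, i2_inj p, q2_surj p, ex2 p⟩
  have s3 : ∀ p, SES (A Q) (GT Q 1 (eth - p)) (GT Q 3 0 × GT Q 3 0) (GT Q 5 (p - eth)) :=
    fun p => ⟨zP Q p, sP Q p, zP_inj p, sP_surj p, ex3 p⟩
  have s4 : ∀ p, SES (A Q) (GT Q 0 0) (GT Q 1 (eth - p)) (Pool.Agent.H796H.X Q (p + Q)) :=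
    fun p => ⟨jP Q p, q4 Q p, jP_inj p, q4_surj p, ex4 p⟩
  have hI := proj_I hb (fun p : ℂ => p + Q) (fun p => ⟨p - Q, by ring⟩)
    (fun p => Pool.Agent.H796H.X Q p) (fun p => Pool.Agent.H796H.I1 Q p)
    (fun p => GT Q 5 (p - eth)) (fun p => GT Q 1 (eth - p)) (GT Q 6 0) (GT Q 3 0 × GT Q 3 0)
    (GT Q 0 0) proj6 w1 proj0 s1 s2 s3 s4 0
  refine not_proj_I (pu_mem 0) (pv_mem 0) (p_ind 0) ?_ hI
  intro y
  obtain ⟨x, hx⟩ := sP_surj (Q := Q) 0 y
  refine ⟨x, ?_⟩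
  rw [← hx]
  apply Subtype.ext
  refine Prod.ext (funext fun i => ?_) (funext fun i => ?_)
  · rw [sP_fst]
    rfl
  · rw [sP_snd]
    rfl

end Pool.Agent.Helper272_HN
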